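import Pool.Agent.Work.MP_14a437_ag.R.PathT

/-!
# R/Local  (M) : the deformation theorem with explicit constants

Let `W' = Re W + i Im Z` (an additive map).  `‖W' - Z‖ = |Re (W - Z)| ≤ ‖W - Z‖ ≤ sin(π ε) ‖Z‖` on
σ-semistable objects (`0 < cos - sin ≤ 1`), so `path0` gives `τ'` with `τ'.Z = W'`, `Near σ τ' ε`.
`‖W - W'‖ = |Im (W - Z)| ≤ κ ‖Z‖` on σ-semistable objects, `κ = sin(π ε)(cos(π ε) - sin(π ε))`, so by
`transfer` `‖W - W'‖ ≤ sin(π ε) ‖W'‖` on τ'-semistable objects.  `pathT` with `θ = 1/2`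
(`exp(-π i/2) = -i`, `Im(-i w) = -Re w`, and `Re W = Re W'`) gives `τ`; `Near.trans`, `JoinedS.trans`.
-/

open CategoryTheory CategoryTheory.Limits CategoryTheory.Pretriangulated

universe v u

namespace MP_14a437_ag

variable {C : Type u} [Category.{v} C] [Preadditive C] [HasZeroObject C] [HasShift C ℤ]
  [∀ n : ℤ, (shiftFunctor C n).Additive] [Pretriangulated C] [IsTriangulated C]

/-- real part of `W`, imaginary part of `Z` -/
noncomputable def mixZ (Z W : K0 C →+ ℂ) : K0 C →+ ℂ where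
  toFun x := ⟨(W x).re, (Z x).im⟩
  map_zero' := by rw [map_zero, map_zero]
  map_add' x y := by
    apply Complex.ext
    · simp
    · simp

omit [IsTriangulated C] in
theorem mixZ_re (Z W : K0 C →+ ℂ) (x : K0 C) : (mixZ Z W x).re = (W x).re := rfl

omit [IsTriangulated C] in
theorem mixZ_im (Z W : K0 C →+ ℂ) (x : K0 C) : (mixZ Z W x).im = (Z x).im := rfl

omit [IsTriangulated C] in
theorem norm_mixZ_sub (Z W : K0 C →+ ℂ) (x : K0 C) : ‖mixZ Z W x - Z x‖ ≤ ‖W x - Z x‖ := by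
  have h1 : mixZ Z W x - Z x = (((W x - Z x).re : ℝ) : ℂ) := by
    apply Complex.ext
    · simp [mixZ_re]
    · simp [mixZ_im]
  rw [h1, Complex.norm_real]
  exact Complex.abs_re_le_norm _

omit [IsTriangulated C] in
theorem norm_sub_mixZ (Z W : K0 C →+ ℂ) (x : K0 C) : ‖W x - mixZ Z W x‖ ≤ ‖W x - Z x‖ := by
  have h1 : W x - mixZ Z W x = (((W x - Z x).im : ℝ) : ℂ) * Complex.I := by
    apply Complex.ext
    · simp [mixZ_re]
    · simp [mixZ_im]
  rw [h1, norm_mul, Complex.norm_I, mul_one, Complex.norm_real]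
  exact Complex.abs_im_le_norm _

theorem local_deform [Module.Free ℤ (K0 C)] [Module.Finite ℤ (K0 C)] (σ : StabCond C)
    (W : K0 C →+ ℂ) {ε : ℝ} (hε0 : 0 ≤ ε) (hε : ε < 1 / 4)
    (hle : ∀ (φ : ℝ) (E : C), σ.P φ E → ‖W (cl E) - σ.Z (cl E)‖ ≤
      Real.sin (Real.pi * ε) * (Real.cos (Real.pi * ε) - Real.sin (Real.pi * ε)) *
        ‖σ.Z (cl E)‖) :
    ∃ τ : StabCond C, τ.Z = W ∧ Near σ.toSlicing τ.toSlicing (2 * ε) ∧ JoinedS σ τ := by
  have hπ := Real.pi_pos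
  have hs0 : 0 ≤ Real.sin (Real.pi * ε) :=
    Real.sin_nonneg_of_nonneg_of_le_pi (by positivity) (by nlinarith)
  have hcs : 0 < Real.cos (Real.pi * ε) - Real.sin (Real.pi * ε) := by
    have h1 : Real.sin (Real.pi * ε) < Real.sin (Real.pi / 2 - Real.pi * ε) :=
      Real.sin_lt_sin_of_lt_of_le_pi_div_two (by nlinarith) (by nlinarith) (by nlinarith)
    rw [Real.sin_pi_div_two_sub] at h1
    linarith
  have hcs1 : Real.cos (Real.pi * ε) - Real.sin (Real.pi * ε) ≤ 1 := by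
    have := Real.cos_le_one (Real.pi * ε)
    linarith
  set W' : K0 C →+ ℂ := mixZ σ.Z W with hW'
  have hle1 : ∀ (φ : ℝ) (E : C), σ.P φ E → ‖W (cl E) - σ.Z (cl E)‖ ≤
      Real.sin (Real.pi * ε) * ‖σ.Z (cl E)‖ := by
    intro φ E hE
    refine (hle φ E hE).trans ?_
    refine mul_le_mul_of_nonneg_right ?_ (norm_nonneg _)
    calc _ ≤ Real.sin (Real.pi * ε) * 1 := mul_le_mul_of_nonneg_left hcs1 hs0
      _ = _ := mul_one _
  have hle2 : ∀ (φ : ℝ) (E : C), σ.P φ E → ‖W' (cl E) - σ.Z (cl E)‖ ≤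
      Real.sin (Real.pi * ε) * ‖σ.Z (cl E)‖ := fun φ E hE =>
    (norm_mixZ_sub σ.Z W (cl E)).trans (hle1 φ E hE)
  obtain ⟨τ', hZ', hn', hj'⟩ := path0 σ W' (fun x => mixZ_im σ.Z W x) hε0 hε hle2
  have hrot : ∀ (V : K0 C →+ ℂ) (x : K0 C), (rotZ V (1 / 2) x).im = -(V x).re := by
    intro V x
    have h1 : (-(Real.pi * ((1 / 2 : ℝ) : ℂ) * Complex.I) : ℂ) =
        ((-(Real.pi / 2) : ℝ) : ℂ) * Complex.I := by push_cast; ring
    rw [rotZ_apply, h1, Complex.mul_im, Complex.exp_ofReal_mul_I_re, Complex.exp_ofReal_mul_I_im,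
      Real.cos_neg, Real.sin_neg, Real.cos_pi_div_two, Real.sin_pi_div_two]
    ring
  obtain ⟨τ, hZ, hn, hj⟩ := pathT τ' (1 / 2) W (by
    intro x
    rw [hrot, hrot, hZ', hW', mixZ_re]) hε0 hε (by
    intro ψ E hE
    have h1 := transfer σ.toPre τ'.toPre hε0 hε hn' (by
      intro φ X hX
      show ‖τ'.Z (cl X) - σ.Z (cl X)‖ ≤ _
      rw [hZ']
      exact hle2 φ X hX) (W - W') (κ := Real.sin (Real.pi * ε) *
        (Real.cos (Real.pi * ε) - Real.sin (Real.pi * ε))) (by positivity) (by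
      intro φ X hX
      rw [AddMonoidHom.sub_apply]
      exact (norm_sub_mixZ σ.Z W (cl X)).trans (hle φ X hX)) hE
    rw [AddMonoidHom.sub_apply] at h1
    rw [hZ']
    refine h1.trans (le_of_eq ?_)
    show _ * ‖τ'.Z (cl E)‖ = _
    rw [hZ', mul_div_assoc, div_self hcs.ne', mul_one])
  refine ⟨τ, hZ, ?_, hj'.trans hj⟩
  rw [two_mul]
  exact hn'.trans hn

/-- the coordinate version: central charges close to `Z` on a basis lift -/
theorem local_deform_basis [Module.Free ℤ (K0 C)] [Module.Finite ℤ (K0 C)] {ι : Type*}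
    [Fintype ι] (b : Module.Basis ι ℤ (K0 C)) (σ : StabCond C) {ε : ℝ} (hε : 0 < ε) :
    ∃ r : ℝ, 0 < r ∧ ∀ W : K0 C →+ ℂ, (∀ i, ‖W (b i) - σ.Z (b i)‖ ≤ r) →
      ∃ τ : StabCond C, τ.Z = W ∧ Near σ.toSlicing τ.toSlicing ε ∧ JoinedS σ τ := by
  have hπ := Real.pi_pos
  set ε' : ℝ := min (ε / 2) (1 / 8) with hε'
  have hε'0 : 0 < ε' := lt_min (by positivity) (by norm_num)
  have hε'1 : ε' ≤ 1 / 8 := min_le_right _ _
  have hε'2 : 2 * ε' ≤ ε := by
    have := min_le_left (ε / 2) (1 / 8)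
    linarith
  have hs0 : 0 < Real.sin (Real.pi * ε') :=
    Real.sin_pos_of_pos_of_lt_pi (by positivity) (by nlinarith)
  have hcs : 0 < Real.cos (Real.pi * ε') - Real.sin (Real.pi * ε') := by
    have h1 : Real.sin (Real.pi * ε') < Real.sin (Real.pi / 2 - Real.pi * ε') :=
      Real.sin_lt_sin_of_lt_of_le_pi_div_two (by nlinarith) (by nlinarith) (by nlinarith)
    rw [Real.sin_pi_div_two_sub] at h1
    linarith
  set κ : ℝ := Real.sin (Real.pi * ε') *
    (Real.cos (Real.pi * ε') - Real.sin (Real.pi * ε')) with hκ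
  have hκ0 : 0 < κ := by positivity
  choose c hc using fun i => σ.support
    ((Int.castAddHom ℝ).comp (b.coord i).toAddMonoidHom)
  have hS0 : 0 ≤ ∑ i, |c i| := Finset.sum_nonneg fun _ _ => abs_nonneg _
  refine ⟨κ / (1 + ∑ i, |c i|), by positivity, fun W hW => ?_⟩
  obtain ⟨τ, hZ, hn, hj⟩ := local_deform σ W hε'0.le (by linarith) (by
    intro φ E hE
    have hexp : ∀ V : K0 C →+ ℂ, V (cl E) = ∑ i, ((b.repr (cl E) i : ℤ) : ℂ) * V (b i) := by
      intro V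
      conv_lhs => rw [← b.sum_repr (cl E)]
      rw [map_sum]
      refine Finset.sum_congr rfl fun i _ => ?_
      rw [map_zsmul, zsmul_eq_mul]
    have h1 : W (cl E) - σ.Z (cl E) =
        ∑ i, ((b.repr (cl E) i : ℤ) : ℂ) * (W (b i) - σ.Z (b i)) := by
      rw [hexp W, hexp σ.Z, ← Finset.sum_sub_distrib]
      refine Finset.sum_congr rfl fun i _ => ?_
      ring
    rw [h1, ← hκ]
    have h2 : ∀ i, ‖((b.repr (cl E) i : ℤ) : ℂ) * (W (b i) - σ.Z (b i))‖ ≤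
        |c i| * ‖σ.Z (cl E)‖ * (κ / (1 + ∑ i, |c i|)) := by
      intro i
      rw [norm_mul]
      refine mul_le_mul ?_ (hW i) (norm_nonneg _) (by positivity)
      have h3 : |((b.repr (cl E) i : ℤ) : ℝ)| ≤ c i * ‖σ.Z (cl E)‖ := hc i φ E hE
      rw [show ‖((b.repr (cl E) i : ℤ) : ℂ)‖ = |((b.repr (cl E) i : ℤ) : ℝ)| from by
        rw [← Complex.ofReal_intCast, Complex.norm_real, Real.norm_eq_abs]]
      exact h3.trans (mul_le_mul_of_nonneg_right (le_abs_self _) (norm_nonneg _))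
    calc ‖∑ i, ((b.repr (cl E) i : ℤ) : ℂ) * (W (b i) - σ.Z (b i))‖
        ≤ ∑ i, ‖((b.repr (cl E) i : ℤ) : ℂ) * (W (b i) - σ.Z (b i))‖ := norm_sum_le _ _
      _ ≤ ∑ i, |c i| * ‖σ.Z (cl E)‖ * (κ / (1 + ∑ i, |c i|)) :=
          Finset.sum_le_sum fun i _ => h2 i
      _ = ((∑ i, |c i|) / (1 + ∑ i, |c i|)) * (κ * ‖σ.Z (cl E)‖) := by
          rw [← Finset.sum_mul, ← Finset.sum_mul]; ring
      _ ≤ 1 * (κ * ‖σ.Z (cl E)‖) := by
          refine mul_le_mul_of_nonneg_right ?_ (by positivity)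
          rw [div_le_one (by positivity)]
          linarith
      _ = κ * ‖σ.Z (cl E)‖ := one_mul _)
  exact ⟨τ, hZ, hn.mono hε'2, hj⟩

end MP_14a437_ag
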