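import Pool.Agent.Work.MP_14a437_ag.Hyp

/-!
# R/TopDef : Bridgeland's topology and paths  (FIXED)
-/

open CategoryTheory CategoryTheory.Limits CategoryTheory.Pretriangulated

universe v u

namespace MP_14a437_ag

variable {C : Type u} [Category.{v} C] [Preadditive C] [HasZeroObject C] [HasShift C ℤ]
  [∀ n : ℤ, (shiftFunctor C n).Additive] [Pretriangulated C]

/-- Bridgeland's topology on the space of stability conditions: the coarsest one for which the slicing
(with the generalized metric) and the central charge (pointwise) vary continuously. -/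
def fineTopology : TopologicalSpace (StabCond C) where
  IsOpen U := ∀ σ ∈ U, ∃ (ε : ℝ) (F : Finset (K0 C)), 0 < ε ∧ ∀ τ : StabCond C,
    Near σ.toSlicing τ.toSlicing ε → (∀ x ∈ F, ‖τ.Z x - σ.Z x‖ ≤ ε) → τ ∈ U
  isOpen_univ := fun _ _ => ⟨1, ∅, one_pos, fun _ _ _ => trivial⟩
  isOpen_inter := by
    classical
    rintro U V hU hV σ ⟨h1, h2⟩
    obtain ⟨ε, F, hε, h3⟩ := hU σ h1
    obtain ⟨δ, G, hδ, h4⟩ := hV σ h2
    exact ⟨min ε δ, F ∪ G, lt_min hε hδ, fun τ h h' =>
      ⟨h3 τ (h.mono (min_le_left _ _)) fun x hx =>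
        (h' x (Finset.mem_union_left _ hx)).trans (min_le_left _ _),
      h4 τ (h.mono (min_le_right _ _)) fun x hx =>
        (h' x (Finset.mem_union_right _ hx)).trans (min_le_right _ _)⟩⟩
  isOpen_sUnion := by
    rintro s hs σ ⟨U, hU, hσ⟩
    obtain ⟨ε, F, hε, h⟩ := hs U hU σ hσ
    exact ⟨ε, F, hε, fun τ hτ hτ' => ⟨U, hU, h τ hτ hτ'⟩⟩

theorem isOpen_fine_iff (U : Set (StabCond C)) : @IsOpen (StabCond C) fineTopology U ↔
    ∀ σ ∈ U, ∃ (ε : ℝ) (F : Finset (K0 C)), 0 < ε ∧ ∀ τ : StabCond C,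
      Near σ.toSlicing τ.toSlicing ε → (∀ x ∈ F, ‖τ.Z x - σ.Z x‖ ≤ ε) → τ ∈ U := Iff.rfl

/-- `σ` and `τ` are joined by a path, continuous for `fineTopology`. -/
def JoinedS (σ τ : StabCond C) : Prop := @Joined (StabCond C) fineTopology σ τ

theorem JoinedS.refl (σ : StabCond C) : JoinedS σ σ := @Joined.refl _ fineTopology σ

theorem JoinedS.symm {σ τ : StabCond C} (h : JoinedS σ τ) : JoinedS τ σ :=
  @Joined.symm _ fineTopology _ _ h

theorem JoinedS.trans {σ τ υ : StabCond C} (h : JoinedS σ τ) (h' : JoinedS τ υ) : JoinedS σ υ :=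
  @Joined.trans _ fineTopology _ _ _ h h'

end MP_14a437_ag
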