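import Pool.Agent.Work.MP_14a437_ag.G.Defs
import Pool.Agent.Work.MP_14a437_ag.S.Shift

/-!
# R/Rot : rotation of stability conditions  (definitions and proofs by helper76, FIXED)
-/

open CategoryTheory CategoryTheory.Limits CategoryTheory.Pretriangulated

universe v u

namespace MP_14a437_ag

variable {C : Type u} [Category.{v} C] [Preadditive C] [HasZeroObject C] [HasShift C ℤ]
  [∀ n : ℤ, (shiftFunctor C n).Additive] [Pretriangulated C]

theorem hn_rot {P : ℝ → ObjectProperty C} (θ : ℝ) {E : C} {l : List ℝ} (h : HN P E l) :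
    HN (fun φ => P (φ + θ)) E (l.map (fun φ => φ - θ)) := by
  induction h with
  | zero h => exact HN.zero h
  | cons f g h hT hE' hA hA0 hl ih =>
    refine HN.cons f g h hT ih ?_ hA0 ?_
    · simpa using hA
    · intro ψ hψ
      obtain ⟨χ, hχ, rfl⟩ := List.mem_map.1 hψ
      have := hl χ hχ
      linarith

theorem hn_unrot {P : ℝ → ObjectProperty C} (θ : ℝ) {E : C} {l : List ℝ}
    (h : HN (fun φ => P (φ + θ)) E l) : HN P E (l.map (fun φ => φ + θ)) := by
  have h1 := hn_rot (-θ) h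
  have h2 : (fun φ : ℝ => P (φ + -θ + θ)) = P := by
    funext φ; rw [neg_add_cancel_right]
  have h3 : (fun φ : ℝ => φ - -θ) = fun φ => φ + θ := by
    funext φ; ring
  rw [h3] at h1
  rw [← h2]
  exact h1

/-- the slicing with `P'(φ) = P(φ + θ)` -/
def Slicing.rot (S : Slicing C) (θ : ℝ) : Slicing C where
  P φ := S.P (φ + θ)
  iso φ := S.iso _
  zero φ := S.zero _
  biprod φ := S.biprod _
  shift φ X := by
    rw [show φ + 1 + θ = (φ + θ) + 1 by ring]
    exact S.shift _ _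
  hom φ ψ X Y h hX hY f := S.hom (φ + θ) (ψ + θ) X Y (by linarith) hX hY f
  exists_hn E := by
    obtain ⟨l, hl⟩ := S.exists_hn E
    exact ⟨_, hn_rot θ hl⟩

/-- multiplication of a central charge by `exp(-π i θ)` -/
noncomputable def rotZ (Z : K0 C →+ ℂ) (θ : ℝ) : K0 C →+ ℂ where
  toFun x := Complex.exp (-(Real.pi * θ * Complex.I)) * Z x
  map_zero' := by simp
  map_add' x y := by rw [map_add, mul_add]

theorem rotZ_apply (Z : K0 C →+ ℂ) (θ : ℝ) (x : K0 C) :
    rotZ Z θ x = Complex.exp (-(Real.pi * θ * Complex.I)) * Z x := rfl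

theorem norm_rotZ (Z : K0 C →+ ℂ) (θ : ℝ) (x : K0 C) : ‖rotZ Z θ x‖ = ‖Z x‖ := by
  rw [rotZ_apply, norm_mul]
  have : (-(Real.pi * θ * Complex.I) : ℂ) = ((-(Real.pi * θ) : ℝ) : ℂ) * Complex.I := by
    push_cast; ring
  rw [this, Complex.norm_exp_ofReal_mul_I, one_mul]

/-- the rotated stability condition: `P'(φ) = P(φ + θ)`, `Z' = exp(-π i θ) Z` -/
noncomputable def StabCond.rot (σ : StabCond C) (θ : ℝ) : StabCond C :=
  { σ.toSlicing.rot θ with
    Z := rotZ σ.Z θ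
    compat := by
      intro φ E hE h0
      obtain ⟨m, hm, h1⟩ := σ.compat (φ + θ) E hE h0
      refine ⟨m, hm, ?_⟩
      rw [rotZ_apply, h1, mul_left_comm, ← Complex.exp_add]
      congr 2
      push_cast; ring
    support := by
      intro l
      obtain ⟨c, hc⟩ := σ.support l
      refine ⟨c, fun φ E hE => ?_⟩
      rw [norm_rotZ]
      exact hc (φ + θ) E hE }

theorem rot_P (σ : StabCond C) (θ φ : ℝ) : (σ.rot θ).P φ = σ.P (φ + θ) := rfl

theorem rot_Z (σ : StabCond C) (θ : ℝ) : (σ.rot θ).Z = rotZ σ.Z θ := rfl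

theorem rotZ_rotZ (Z : K0 C →+ ℂ) (θ η : ℝ) : rotZ (rotZ Z θ) η = rotZ Z (θ + η) := by
  ext x
  rw [rotZ_apply, rotZ_apply, rotZ_apply, ← mul_assoc, ← Complex.exp_add]
  congr 2
  push_cast; ring

theorem rotZ_zero (Z : K0 C →+ ℂ) : rotZ Z 0 = Z := by
  ext x
  rw [rotZ_apply]; simp

theorem StabCond.ext' {σ τ : StabCond C} (hP : σ.P = τ.P) (hZ : σ.Z = τ.Z) : σ = τ := by
  rcases σ with ⟨⟨P, _, _, _, _, _, _⟩, Z, _, _⟩
  rcases τ with ⟨⟨P', _, _, _, _, _, _⟩, Z', _, _⟩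
  obtain rfl : P = P' := hP
  obtain rfl : Z = Z' := hZ
  rfl

theorem rot_rot_neg (σ : StabCond C) (θ : ℝ) : (σ.rot θ).rot (-θ) = σ := by
  refine StabCond.ext' ?_ ?_
  · funext φ
    show σ.P (φ + -θ + θ) = σ.P φ
    rw [neg_add_cancel_right]
  · rw [rot_Z, rot_Z, rotZ_rotZ, add_neg_cancel, rotZ_zero]

theorem rot_neg_rot (σ : StabCond C) (θ : ℝ) : (σ.rot (-θ)).rot θ = σ := by
  have h := rot_rot_neg σ (-θ)
  rwa [neg_neg] at h

theorem near_rot {S T : Slicing C} {ε : ℝ} (h : Near S T ε) (θ : ℝ) :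
    Near (S.rot θ) (T.rot θ) ε := by
  intro E l m hl hm h1 h2
  have h1' : HN S.P E (l.map (fun φ => φ + θ)) := hn_unrot θ h1
  have h2' : HN T.P E (m.map (fun φ => φ + θ)) := hn_unrot θ h2
  obtain ⟨h3, h4⟩ := h E _ _ (by simpa using hl) (by simpa using hm) h1' h2'
  simp only [List.head_map, List.getLast_map] at h3 h4
  constructor
  · rwa [show l.head hl + θ - (m.head hm + θ) = l.head hl - m.head hm by ring] at h3
  · rwa [show l.getLast hl + θ - (m.getLast hm + θ) = l.getLast hl - m.getLast hm by ring] at h4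

theorem near_unrot {σ τ : StabCond C} {ε : ℝ} {θ : ℝ}
    (h : Near (σ.rot θ).toSlicing (τ.rot θ).toSlicing ε) : Near σ.toSlicing τ.toSlicing ε := by
  have h1 : Near ((σ.rot θ).rot (-θ)).toSlicing ((τ.rot θ).rot (-θ)).toSlicing ε :=
    near_rot h (-θ)
  rwa [rot_rot_neg, rot_rot_neg] at h1

theorem heart_rot (S : Slicing C) (θ : ℝ) (E : C) : (S.rot θ).heart 0 E ↔ S.heart θ E := by
  constructor
  · rintro ⟨l, hl, hI⟩
    refine ⟨_, hn_unrot θ hl, ?_⟩
    intro ψ hψ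
    obtain ⟨χ, hχ, rfl⟩ := List.mem_map.1 hψ
    obtain ⟨h1, h2⟩ := hI χ hχ
    exact ⟨by linarith, by linarith⟩
  · rintro ⟨l, hl, hI⟩
    refine ⟨_, hn_rot θ hl, ?_⟩
    intro ψ hψ
    obtain ⟨χ, hχ, rfl⟩ := List.mem_map.1 hψ
    obtain ⟨h1, h2⟩ := hI χ hχ
    exact ⟨by linarith, by linarith⟩

end MP_14a437_ag
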