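import Pool.Agent.Work.MP_14a437_ag.R.TopDef
import Pool.Agent.Work.MP_14a437_ag.R.Rot

/-!
# R/Fam  (M) : continuous families are paths; rotation is continuous

`joined_of_family`: `fun t : unitInterval => γ t` is continuous for `fineTopology`
(`continuous_def` with `isOpen_fine_iff`; `Metric.isOpen_iff` on `unitInterval`), so it is a `Path`.
`JoinedS.unrot`: `fun σ => σ.rot (-θ)` is continuous for `fineTopology` on both sides: for `U` open and
`σ.rot (-θ) ∈ U` with `ε, F`, the same `ε, F` work for `σ` (`near_rot`, `norm_rotZ` for the difference of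
central charges: `rotZ Z θ x - rotZ Z' θ x = exp(..) * (Z x - Z' x)`); `Joined.map`, `rot_rot_neg`.
-/

open CategoryTheory CategoryTheory.Limits CategoryTheory.Pretriangulated

universe v u

namespace MP_14a437_ag

variable {C : Type u} [Category.{v} C] [Preadditive C] [HasZeroObject C] [HasShift C ℤ]
  [∀ n : ℤ, (shiftFunctor C n).Additive] [Pretriangulated C]

theorem joined_of_family (γ : ℝ → StabCond C)
    (h : ∀ s ∈ Set.Icc (0 : ℝ) 1, ∀ (ε : ℝ) (F : Finset (K0 C)), 0 < ε → ∃ δ : ℝ, 0 < δ ∧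
      ∀ t ∈ Set.Icc (0 : ℝ) 1, |t - s| < δ → Near (γ s).toSlicing (γ t).toSlicing ε ∧
        ∀ x ∈ F, ‖(γ t).Z x - (γ s).Z x‖ ≤ ε) : JoinedS (γ 0) (γ 1) := by
  have hcont : @Continuous unitInterval (StabCond C) _ fineTopology (fun t => γ t) := by
    refine @continuous_def unitInterval (StabCond C) _ fineTopology _ |>.2 ?_
    intro U hU
    rw [Metric.isOpen_iff]
    intro s hs
    obtain ⟨ε, F, hε, h1⟩ := hU (γ s) hs
    obtain ⟨δ, hδ, h2⟩ := h s s.2 ε F hε
    refine ⟨δ, hδ, fun t ht => ?_⟩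
    obtain ⟨h3, h4⟩ := h2 t t.2 (by
      rw [Metric.mem_ball, Subtype.dist_eq, Real.dist_eq] at ht
      exact ht)
    exact h1 (γ t) h3 h4
  exact ⟨@Path.mk (StabCond C) fineTopology (γ 0) (γ 1)
    (@ContinuousMap.mk unitInterval (StabCond C) _ fineTopology (fun t => γ t) hcont)
    rfl rfl⟩

theorem JoinedS.unrot {σ τ : StabCond C} {θ : ℝ} (h : JoinedS (σ.rot θ) (τ.rot θ)) :
    JoinedS σ τ := by
  have hc : @Continuous (StabCond C) (StabCond C) fineTopology fineTopology
      (fun σ : StabCond C => σ.rot (-θ)) := by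
    refine @continuous_def (StabCond C) (StabCond C) fineTopology fineTopology _ |>.2 ?_
    intro U hU σ hσ
    obtain ⟨ε, F, hε, h1⟩ := hU _ hσ
    refine ⟨ε, F, hε, fun τ h2 h3 => h1 (τ.rot (-θ)) (near_rot h2 (-θ)) ?_⟩
    intro x hx
    have h4 : (τ.rot (-θ)).Z x - (σ.rot (-θ)).Z x = rotZ (τ.Z - σ.Z) (-θ) x := by
      rw [rot_Z, rot_Z, rotZ_apply, rotZ_apply, rotZ_apply, AddMonoidHom.sub_apply, mul_sub]
    rw [h4, norm_rotZ, AddMonoidHom.sub_apply]
    exact h3 x hx
  have h1 := @Joined.map (StabCond C) (StabCond C) fineTopology fineTopology _ _ _ h hc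
  have h2 : @Joined (StabCond C) fineTopology ((σ.rot θ).rot (-θ)) ((τ.rot θ).rot (-θ)) := h1
  rw [rot_rot_neg, rot_rot_neg] at h2
  exact h2

end MP_14a437_ag
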