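import Pool.Agent.Work.MP_14a437_ag.R.Fam
import Pool.Agent.Work.MP_14a437_ag.G.Deform

/-!
# R/Path0  (M-L) : the deformation of `deform0` is a path

For `t ∈ [0,1]` let `W_t = Z + t (W - Z)`; `‖W_t - Z‖ = t ‖W - Z‖`, so `deform0` gives `τ_t` with
`τ_t.Z = W_t`, the same heart `heart 0` and `Near σ τ_t ε`.  Choose `τ_t` by `Classical.choose`, with
`τ_t = σ` for `t ≤ 0` (then `γ 0 = σ`; or show `τ_0 = σ`).  Continuity at `s` (`joined_of_family`): all `τ_t`
have the heart of `σ` and central charges with the same imaginary part.  By the support property of `τ_s`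
for the real and imaginary parts of `W - Z` there is `K` with `‖(W-Z)(E)‖ ≤ K ‖W_s(E)‖` for all
`τ_s`-semistable `E`, so `‖W_t(E) - W_s(E)‖ ≤ |t-s| K ‖W_s(E)‖ ≤ sin(π ε') ‖W_s(E)` as soon as
`|t-s| K ≤ sin(π ε')`, `ε' = min ε (1/8)`; `near_of_heart` gives `Near τ_s τ_t ε'`.  And
`‖W_t x - W_s x‖ = |t-s| ‖(W-Z) x‖ ≤ ε` for `x` in the finite set `F` if `|t-s|` is small.
-/

open CategoryTheory CategoryTheory.Limits CategoryTheory.Pretriangulated

universe v u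

namespace MP_14a437_ag

variable {C : Type u} [Category.{v} C] [Preadditive C] [HasZeroObject C] [HasShift C ℤ]
  [∀ n : ℤ, (shiftFunctor C n).Additive] [Pretriangulated C] [IsTriangulated C]

/-- the segment from `Z` to `W` -/
noncomputable def segZ (Z W : K0 C →+ ℂ) (t : ℝ) : K0 C →+ ℂ where
  toFun x := Z x + (t : ℂ) * (W x - Z x)
  map_zero' := by simp
  map_add' x y := by simp only [map_add]; ring

omit [IsTriangulated C] in
theorem segZ_apply (Z W : K0 C →+ ℂ) (t : ℝ) (x : K0 C) :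
    segZ Z W t x = Z x + (t : ℂ) * (W x - Z x) := rfl

omit [IsTriangulated C] in
theorem segZ_sub (Z W : K0 C →+ ℂ) (s t : ℝ) (x : K0 C) :
    segZ Z W t x - segZ Z W s x = ((t - s : ℝ) : ℂ) * (W x - Z x) := by
  rw [segZ_apply, segZ_apply]; push_cast; ring

omit [IsTriangulated C] in
theorem segZ_im (Z W : K0 C →+ ℂ) (hIm : ∀ x, (W x).im = (Z x).im) (t : ℝ) (x : K0 C) :
    (segZ Z W t x).im = (Z x).im := by
  rw [segZ_apply, Complex.add_im, Complex.im_ofReal_mul, Complex.sub_im, hIm, sub_self, mul_zero,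
    add_zero]

theorem path0 [Module.Free ℤ (K0 C)] [Module.Finite ℤ (K0 C)] (σ : StabCond C)
    (W : K0 C →+ ℂ) (hIm : ∀ x, (W x).im = (σ.Z x).im) {ε : ℝ} (hε0 : 0 ≤ ε) (hε : ε < 1 / 4)
    (hle : ∀ (φ : ℝ) (E : C), σ.P φ E →
      ‖W (cl E) - σ.Z (cl E)‖ ≤ Real.sin (Real.pi * ε) * ‖σ.Z (cl E)‖) :
    ∃ τ : StabCond C, τ.Z = W ∧ Near σ.toSlicing τ.toSlicing ε ∧ JoinedS σ τ := by
  have hsin0 : 0 ≤ Real.sin (Real.pi * ε) :=
    Real.sin_nonneg_of_nonneg_of_le_pi (by positivity) (by nlinarith [Real.pi_pos])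
  -- the family
  have hex : ∀ t : ℝ, 0 ≤ t → t ≤ 1 → ∃ τ : StabCond C, τ.Z = segZ σ.Z W t ∧
      (∀ E : C, τ.heart 0 E ↔ σ.heart 0 E) ∧ Near σ.toSlicing τ.toSlicing ε := by
    intro t ht0 ht1
    refine deform0 σ (segZ σ.Z W t) (segZ_im σ.Z W hIm t) hε0 hε ?_
    intro φ E hE
    have h1 : segZ σ.Z W t (cl E) - σ.Z (cl E) = (t : ℂ) * (W (cl E) - σ.Z (cl E)) := by
      rw [segZ_apply]; ring
    rw [h1, norm_mul, Complex.norm_real, Real.norm_eq_abs, abs_of_nonneg ht0]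
    calc t * ‖W (cl E) - σ.Z (cl E)‖ ≤ 1 * ‖W (cl E) - σ.Z (cl E)‖ :=
          mul_le_mul_of_nonneg_right ht1 (norm_nonneg _)
      _ ≤ _ := by rw [one_mul]; exact hle φ E hE
  classical
  let γ : ℝ → StabCond C := fun t =>
    if h : 0 < t ∧ t ≤ 1 then Classical.choose (hex t h.1.le h.2) else σ
  have hγ : ∀ t ∈ Set.Icc (0 : ℝ) 1, (γ t).Z = segZ σ.Z W t ∧
      (∀ E : C, (γ t).heart 0 E ↔ σ.heart 0 E) ∧ Near σ.toSlicing (γ t).toSlicing ε := by
    intro t ht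
    by_cases h : 0 < t ∧ t ≤ 1
    · have : γ t = Classical.choose (hex t h.1.le h.2) := dif_pos h
      rw [this]
      exact Classical.choose_spec (hex t h.1.le h.2)
    · have ht0 : t = 0 := by
        by_contra h0
        exact h ⟨lt_of_le_of_ne ht.1 (Ne.symm h0), ht.2⟩
      have : γ t = σ := dif_neg h
      rw [this]
      refine ⟨?_, fun _ => Iff.rfl, ?_⟩
      · ext x
        rw [segZ_apply, ht0]; simp
      · refine near_of_P σ.toSlicing σ.toSlicing hε0 fun φ E hE => ?_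
        exact PS_mono σ.toSlicing (by
          intro x hx
          rw [Set.mem_singleton_iff] at hx
          rw [hx]
          constructor <;> linarith) ((PS_singleton σ.toSlicing φ E).2 hE)
  have h0 : γ 0 = σ := dif_neg (by simp)
  refine ⟨γ 1, ?_, (hγ 1 (by simp)).2.2, ?_⟩
  · rw [(hγ 1 (by simp)).1]
    ext x
    rw [segZ_apply]; simp
  rw [← h0]
  refine joined_of_family γ ?_
  intro s hs ε' F hε'
  -- constants
  obtain ⟨c1, hc1⟩ := (γ s).support
    ((Complex.reLm.toAddMonoidHom).comp (W - σ.Z))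
  obtain ⟨c2, hc2⟩ := (γ s).support
    ((Complex.imLm.toAddMonoidHom).comp (W - σ.Z))
  set K : ℝ := |c1| + |c2| + 1 with hK
  have hK0 : 0 < K := by positivity
  have hbound : ∀ (φ : ℝ) (E : C), (γ s).P φ E →
      ‖W (cl E) - σ.Z (cl E)‖ ≤ K * ‖(γ s).Z (cl E)‖ := by
    intro φ E hE
    have h1 := hc1 φ E hE
    have h2 := hc2 φ E hE
    have h3 : ‖W (cl E) - σ.Z (cl E)‖ ≤
        |(W (cl E) - σ.Z (cl E)).re| + |(W (cl E) - σ.Z (cl E)).im| :=
      Complex.norm_le_abs_re_add_abs_im _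
    have h4 : |(W (cl E) - σ.Z (cl E)).re| ≤ c1 * ‖(γ s).Z (cl E)‖ := h1
    have h5 : |(W (cl E) - σ.Z (cl E)).im| ≤ c2 * ‖(γ s).Z (cl E)‖ := h2
    have h6 : c1 ≤ |c1| := le_abs_self _
    have h7 : c2 ≤ |c2| := le_abs_self _
    have h8 := norm_nonneg ((γ s).Z (cl E))
    nlinarith
  set ε₁ : ℝ := min ε' (1 / 8) with hε₁
  have hε₁0 : 0 < ε₁ := lt_min hε' (by norm_num)
  have hε₁1 : ε₁ ≤ 1 / 8 := min_le_right _ _
  have hs1 : 0 < Real.sin (Real.pi * ε₁) :=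
    Real.sin_pos_of_pos_of_lt_pi (by positivity) (by nlinarith [Real.pi_pos])
  set M : ℝ := ∑ x ∈ F, ‖W x - σ.Z x‖ with hM
  have hM0 : 0 ≤ M := Finset.sum_nonneg fun _ _ => norm_nonneg _
  refine ⟨min (Real.sin (Real.pi * ε₁) / K) (ε' / (M + 1)), lt_min (by positivity)
    (by positivity), ?_⟩
  intro t ht hts
  have hts1 : |t - s| < Real.sin (Real.pi * ε₁) / K := lt_of_lt_of_le hts (min_le_left _ _)
  have hts2 : |t - s| < ε' / (M + 1) := lt_of_lt_of_le hts (min_le_right _ _)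
  obtain ⟨hZs, hHs, -⟩ := hγ s hs
  obtain ⟨hZt, hHt, -⟩ := hγ t ht
  constructor
  · refine Near.mono ?_ (min_le_left ε' (1 / 8))
    refine near_of_heart (γ s).toPre (γ t).toPre (fun E => (hHs E).trans (hHt E).symm) ?_
      hε₁0.le ?_
    · intro x
      show ((γ t).Z x).im = ((γ s).Z x).im
      rw [hZt, hZs, segZ_im σ.Z W hIm, segZ_im σ.Z W hIm]
    · intro φ E hE
      show ‖(γ t).Z (cl E) - (γ s).Z (cl E)‖ ≤ Real.sin (Real.pi * ε₁) * ‖(γ s).Z (cl E)‖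
      have h1 : (γ t).Z (cl E) - (γ s).Z (cl E) =
          ((t - s : ℝ) : ℂ) * (W (cl E) - σ.Z (cl E)) := by
        rw [hZt, hZs, segZ_sub]
      rw [h1, norm_mul, Complex.norm_real, Real.norm_eq_abs]
      have h2 := hbound φ E hE
      rw [lt_div_iff₀ hK0] at hts1
      calc |t - s| * ‖W (cl E) - σ.Z (cl E)‖ ≤ |t - s| * (K * ‖(γ s).Z (cl E)‖) :=
            mul_le_mul_of_nonneg_left h2 (abs_nonneg _)
        _ = (|t - s| * K) * ‖(γ s).Z (cl E)‖ := by ring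
        _ ≤ _ := mul_le_mul_of_nonneg_right hts1.le (norm_nonneg _)
  · intro x hx
    rw [hZt, hZs, segZ_sub, norm_mul, Complex.norm_real, Real.norm_eq_abs]
    have h1 : ‖W x - σ.Z x‖ ≤ M :=
      Finset.single_le_sum (f := fun x => ‖W x - σ.Z x‖) (fun _ _ => norm_nonneg _) hx
    rw [lt_div_iff₀ (by positivity)] at hts2
    have h2 := mul_le_mul_of_nonneg_left h1 (abs_nonneg (t - s))
    nlinarith [abs_nonneg (t - s)]

end MP_14a437_ag
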