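import Pool.Agent.Work.MP_14a437_ag.R.Path0

/-!
# R/PathT  (S-M) : the same in an arbitrary direction

Apply `path0` to `σ.rot θ` and `rotZ W θ` (`rot_Z`, `rotZ_apply`, `norm_rotZ` for the difference), get `τ'`,
put `τ = τ'.rot (-θ)`: `τ.Z = rotZ (rotZ W θ) (-θ) = W` (`rotZ_rotZ`, `rotZ_zero`), `τ.rot θ = τ'`
(`rot_neg_rot`), `near_unrot`, `JoinedS.unrot`.
-/

open CategoryTheory CategoryTheory.Limits CategoryTheory.Pretriangulated

universe v u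

namespace MP_14a437_ag

variable {C : Type u} [Category.{v} C] [Preadditive C] [HasZeroObject C] [HasShift C ℤ]
  [∀ n : ℤ, (shiftFunctor C n).Additive] [Pretriangulated C] [IsTriangulated C]

theorem pathT [Module.Free ℤ (K0 C)] [Module.Finite ℤ (K0 C)] (σ : StabCond C) (θ : ℝ)
    (W : K0 C →+ ℂ) (hIm : ∀ x, (rotZ W θ x).im = (rotZ σ.Z θ x).im) {ε : ℝ} (hε0 : 0 ≤ ε)
    (hε : ε < 1 / 4)
    (hle : ∀ (φ : ℝ) (E : C), σ.P φ E →
      ‖W (cl E) - σ.Z (cl E)‖ ≤ Real.sin (Real.pi * ε) * ‖σ.Z (cl E)‖) :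
    ∃ τ : StabCond C, τ.Z = W ∧ Near σ.toSlicing τ.toSlicing ε ∧ JoinedS σ τ := by
  have hdiff : ∀ x : K0 C, rotZ W θ x - rotZ σ.Z θ x = rotZ (W - σ.Z) θ x := by
    intro x
    rw [rotZ_apply, rotZ_apply, rotZ_apply, AddMonoidHom.sub_apply]; ring
  obtain ⟨τ', hZ, hn, hj⟩ := path0 (σ.rot θ) (rotZ W θ) hIm hε0 hε (by
    intro φ E hE
    rw [rot_Z, hdiff, norm_rotZ, norm_rotZ, AddMonoidHom.sub_apply]
    exact hle (φ + θ) E hE)
  have hτ : (τ'.rot (-θ)).rot θ = τ' := rot_neg_rot τ' θ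
  refine ⟨τ'.rot (-θ), ?_, ?_, ?_⟩
  · rw [rot_Z, hZ, rotZ_rotZ, add_neg_cancel, rotZ_zero]
  · refine near_unrot (θ := θ) ?_
    rw [hτ]; exact hn
  · refine JoinedS.unrot (θ := θ) ?_
    rw [hτ]; exact hj

end MP_14a437_ag
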